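import Pool.Agent.H67.NVL

namespace Pool.Agent.Results.MP_606b74_al.Counter

theorem result : ∃ (G : Type) (_ : Group G) (_ : Finite G),
    commutator G = ⊤ ∧ Subgroup.center G = ⊥ ∧
    ∃ n : ℕ, IsGreatest {m : ℕ | ∃ x : G, m = {y : G | ∃ g : G, y = g * x * g⁻¹}.ncard} n ∧
      n ^ 2 < Nat.card G := by
  obtain ⟨G, _, _, h1, h2, b, hb, hx⟩ := Pool.Agent.H67.NVL.exists_example
  refine ⟨G, inferInstance, inferInstance, h1, h2, ?_⟩
  obtain ⟨x, hmax⟩ := Finite.exists_max (fun x : G => {y : G | ∃ g : G, y = g * x * g⁻¹}.ncard)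
  refine ⟨_, ⟨⟨x, rfl⟩, ?_⟩, lt_of_le_of_lt (Nat.pow_le_pow_left (hx x) 2) hb⟩
  rintro _ ⟨z, rfl⟩
  exact hmax z

end Pool.Agent.Results.MP_606b74_al.Counter
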